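import Pool.Agent.H788Z.Kes.Defs
import Pool.Agent.H788Z.Kes.Baire

set_option autoImplicit false

namespace Pool.Agent.Results.MP_23b0f8_an.ANecessityFails

open Pool.Agent.H788Z.Kes

/-- The Kesten condition is not necessary for the diffraction condition, even when `1, γ, D` are
linearly independent over the rationals. -/
theorem result : ∃ D γ x₀ : ℝ, 0 < D ∧ D < 1 ∧ Irrational γ ∧
    (∀ u v w : ℤ, u * γ + v * D = w → u = 0 ∧ v = 0) ∧ ¬ Kesten D γ ∧
    DiffractionCondition (circleMapSeq D γ x₀) := by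
  obtain ⟨D, γ, h0, h1, hind, hd⟩ := necessity_fails
  refine ⟨D, γ, 1 / 2, h0, h1, ?_, hind, ?_, hd⟩
  · rintro ⟨x, rfl⟩
    have hq : ((x.den : ℕ) : ℝ) * (x : ℝ) = (x.num : ℝ) := by
      exact_mod_cast congrArg (fun y : ℚ => (y : ℝ)) (Rat.den_mul_eq_num x)
    have := (hind x.den 0 x.num (by push_cast; linarith)).1
    exact x.den_nz (by exact_mod_cast this)
  · rintro ⟨j, l, h⟩
    have := (hind (-j) 1 l (by push_cast; linarith)).2
    exact one_ne_zero this

end Pool.Agent.Results.MP_23b0f8_an.ANecessityFails
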