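import Pool.Agent.H788Z.Kes.Defs
import Pool.Agent.H788Z.Kes.Suff

set_option autoImplicit false

namespace Pool.Agent.Results.MP_23b0f8_an.BSufficiency

open Pool.Agent.H788Z.Kes

/-- The Kesten condition is sufficient for the diffraction condition. -/
theorem result (D γ x₀ : ℝ) (h0 : 0 < D) (h1 : D < 1) (hγ : Irrational γ) (hK : Kesten D γ) :
    DiffractionCondition (circleMapSeq D γ x₀) :=
  sufficiency h0 h1 hγ x₀ hK

end Pool.Agent.Results.MP_23b0f8_an.BSufficiency
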